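import Pool.Agent.H116.EN.Main

/-!
# Epsilon-nets for points and lines: `f(ε) ≥ c (1/ε) log(1/ε) / log log(1/ε)`

For every small `ε > 0` there are a finite planar point set `P` and positive weights `w` on the lines
spanned by `P` such that every set `N` of spanned lines which covers all `ε`-heavy points of `P` has
at least `c (1/ε) log(1/ε) / log log(1/ε)` lines.

Sketch of the proof. Let `κ = log(1/ε) / (100 log log(1/ε))` and `g = 16 κ`. The points are those of an
`m × g m` grid with `m ≈ κ / ε`, and the lines of slopes `0, …, g - 1`; a random set `X` of the lines
is taken, of density `q = 1 / (2 g²)`, so that `|X| ≈ m`. The lines of `X` have weight one, the others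
have negligible weight. The `ε`-heavy points are those on at least `κ` lines of `X`, a very rare
event. If few lines (spanned, not necessarily of `X`) always cover the heavy points, then the set of
covering lines which belong to the family meets `X` in a small set, which can be fixed, at the cost of
a conditioning of bounded relative entropy per line. Under the conditioned measure one tilts, for
each point separately, the conditional law of the indicators of the lines through the point so that
the point becomes heavy (a martingale weight for each point). Pairwise orthogonality of the weights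
of two points (two points are on at most one common line) gives a second moment bound
over the points of each line, hence the covering lines carry little of the weight, while the total
weight of the heavy points is large. Lines through many grid points with a direction
outside the family are controlled by counting rich lines of the grid.
-/

set_option autoImplicit false
open Classical

namespace Pool.Agent.Results.MP_ef7f46_co.LogOverLogLog

/-- There are `c > 0` and `ε₀ > 0` such that for all `0 < ε < ε₀` some configuration `P` with some
positive weighting `w` of its spanned lines has no `ε`-net with fewer than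
`c (1/ε) log(1/ε) / log log(1/ε)` lines. -/
theorem result :
    ∃ c : ℝ, 0 < c ∧ ∃ ε₀ : ℝ, 0 < ε₀ ∧ ∀ ε : ℝ, 0 < ε → ε < ε₀ →
      ∃ P : Finset (EuclideanSpace ℝ (Fin 2)), 2 ≤ P.card ∧
        ∃ w : AffineSubspace ℝ (EuclideanSpace ℝ (Fin 2)) → ℝ,
          (∀ l ∈ P.offDiag.image
              (fun x : EuclideanSpace ℝ (Fin 2) × EuclideanSpace ℝ (Fin 2) =>
                affineSpan ℝ ({x.1, x.2} : Set (EuclideanSpace ℝ (Fin 2)))), 0 < w l) ∧
          ∀ N : Finset (AffineSubspace ℝ (EuclideanSpace ℝ (Fin 2))),
            N ⊆ P.offDiag.image
              (fun x : EuclideanSpace ℝ (Fin 2) × EuclideanSpace ℝ (Fin 2) =>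
                affineSpan ℝ ({x.1, x.2} : Set (EuclideanSpace ℝ (Fin 2)))) →
            (∀ p ∈ P,
              ε * (∑ l ∈ P.offDiag.image
                (fun x : EuclideanSpace ℝ (Fin 2) × EuclideanSpace ℝ (Fin 2) =>
                  affineSpan ℝ ({x.1, x.2} : Set (EuclideanSpace ℝ (Fin 2)))), w l)
                ≤ (∑ l ∈ (P.offDiag.image
                (fun x : EuclideanSpace ℝ (Fin 2) × EuclideanSpace ℝ (Fin 2) =>
                  affineSpan ℝ ({x.1, x.2} : Set (EuclideanSpace ℝ (Fin 2))))).filter
                  (fun l => p ∈ l), w l) →
              ∃ l ∈ N, p ∈ l) →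
            c * ((1 / ε) * (Real.log (1 / ε) / Real.log (Real.log (1 / ε)))) ≤ (N.card : ℝ) := by
  obtain ⟨c, hc, ε₀, hε₀, h⟩ := Pool.Agent.H116.EN.main
  refine ⟨c, hc, ε₀, hε₀, ?_⟩
  intro ε h1 h2
  obtain ⟨P, hP, w, hw, hN⟩ := h ε h1 h2
  exact ⟨P, hP, w, hw, hN⟩

end Pool.Agent.Results.MP_ef7f46_co.LogOverLogLog
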